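import Pool.Agent.H128R3.EC.NF

/-!
# Zeros of the high derivatives of the L-functions of weight two newforms

Let `N ≥ 1` and let `f ∈ S_2(Γ_0(N))` have real Fourier coefficients `a(n)`, `a(1) = 1`, and be an
eigenfunction of the Fricke involution.  Every newform of weight 2 with real coefficients is of this
kind; by the modularity theorem (Wiles, Taylor-Wiles, Breuil-Conrad-Diamond-Taylor) the L-function of
every elliptic curve over `ℚ` of conductor `N` is `L(f, s)` for such an `f`.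

We prove that the derivatives `Λ^(n)(f, s)` of the completed L-function, of order `n ≥ N₀`, satisfy the
assertion of the Riemann hypothesis up to the height `e^(c n)`: every zero `s` of `Λ^(n)` with
`|Im s| ≤ e^(c n)` lies on the line `Re s = 1` and is simple.

The analytic part is the starting module `Pool.Agent.H128R3.GJB` (theorem `deriv_zeros`).
-/

set_option autoImplicit false

namespace Pool.Agent.Results.MP_553913_nt.HighDerivativeZeros

open UpperHalfPlane MatrixGroups CongruenceSubgroup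

/-- `f` has real Fourier coefficients `a(n)` with `a(1) = 1` and satisfies
`f(-1/(Nτ)) = -ε N τ² f(τ)`, where `ε = ± 1` is the root number. -/
structure IsNormalized (N : ℕ) (f : CuspForm (Gamma0 N : Subgroup (GL (Fin 2) ℝ)) 2) (ε : ℝ) : Prop where
  one : (qExpansion 1 f).coeff 1 = 1
  real : ∀ n, ((qExpansion 1 f).coeff n).im = 0
  sign : ε = 1 ∨ ε = -1
  fricke : ∀ τ τ' : ℍ, (τ' : ℂ) * ((N : ℂ) * (τ : ℂ)) = -1 →
    f τ' = -(ε : ℂ) * (N : ℂ) * (τ : ℂ) ^ 2 * f τ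

/-- `Λ` is the completed L-function of `f`: it is entire and
`Λ(s) = N^(s/2) (2π)^(-s) Γ(s) ∑ a(n) n^(-s)` for `Re s > 2`. -/
def IsCompleted (N : ℕ) (f : CuspForm (Gamma0 N : Subgroup (GL (Fin 2) ℝ)) 2) (Λ : ℂ → ℂ) : Prop :=
  Differentiable ℂ Λ ∧ ∀ s : ℂ, 2 < s.re →
    Λ s = ((Real.sqrt N / (2 * Real.pi) : ℝ) : ℂ) ^ s * Complex.Gamma s *
      ∑' n : ℕ, (qExpansion 1 f).coeff (n + 1) * ((n + 1 : ℕ) : ℂ) ^ (-s)

theorem result (N : ℕ) [NeZero N] (f : CuspForm (Gamma0 N : Subgroup (GL (Fin 2) ℝ)) 2) (ε : ℝ)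
    (hf : IsNormalized N f ε) :
    ∃ Λ : ℂ → ℂ, IsCompleted N f Λ ∧ (∀ s : ℂ, Λ (2 - s) = ε * Λ s) ∧
      ∃ c : ℝ, 0 < c ∧ ∃ n₀ : ℕ, ∀ n : ℕ, n₀ ≤ n →
        ∀ s : ℂ, iteratedDeriv n Λ s = 0 → |s.im| ≤ Real.exp (c * n) →
          s.re = 1 ∧ iteratedDeriv (n + 1) Λ s ≠ 0 := by
  have hf' : Pool.Agent.H128R3.EC.IsNorm N f ε := ⟨hf.one, hf.real, hf.sign, hf.fricke⟩
  obtain ⟨B, hH⟩ := Pool.Agent.H128R3.EC.nf_isHk f hf'
  set H := Pool.Agent.H128R3.EC.nfHk N f B ε with hHdef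
  set Λ : ℂ → ℂ := mellin (fun y : ℝ => ((H.φ y : ℝ) : ℂ)) with hΛ
  have hk2 : (H.k : ℂ) = 2 := by
    show ((2 : ℝ) : ℂ) = 2
    norm_num
  have hk3 : H.k / 2 = 1 := by
    show (2 : ℝ) / 2 = 1
    norm_num
  have hpr : (-1 : ℂ) ^ Pool.Agent.H128R3.GJB.pr H = ε := by
    have hε : H.ε = ε := rfl
    unfold Pool.Agent.H128R3.GJB.pr
    rw [hε]
    rcases hf.sign with h | h
    · rw [if_pos h, h]
      norm_num
    · rw [if_neg (by rw [h]; norm_num), h]
      norm_num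
  refine ⟨Λ, ⟨Pool.Agent.H128R3.GJB.mellin_diff hH, fun s hs =>
    Pool.Agent.H128R3.EC.nf_dir f hf' hH s hs⟩, ?_, ?_⟩
  · intro s
    have h1 := Pool.Agent.H128R3.GJB.mellin_fe hH s
    rw [hk2, hpr] at h1
    exact h1
  · obtain ⟨c, hc, N0, h⟩ := Pool.Agent.H128R3.GJB.deriv_zeros hH
    refine ⟨c, hc, N0, fun n hn s hs hs2 => ?_⟩
    have h2 := h n hn s hs hs2
    rw [hk3] at h2
    exact h2

end Pool.Agent.Results.MP_553913_nt.HighDerivativeZeros
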