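import Pool.Agent.H313R3.GK.R

/-!
# Zeros of L-functions of weight two newforms are visible in every window `[x, x (log x)^B]`, `B > 2`

Let `N ≥ 1` and let `f ∈ S_2(Γ_0(N))` have real Fourier coefficients `a(n)`, `a(1) = 1`, and be an
eigenfunction of the Fricke involution.  Every newform of weight 2 with real coefficients is of this
kind; by the modularity theorem (Wiles, Taylor-Wiles, Breuil-Conrad-Diamond-Taylor) the L-function of
every elliptic curve over `ℚ` of conductor `N` is `L(f, s)` for such an `f`.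

Let `b(n)` be the coefficients of `1 / L(f, s)` and `M(y) = ∑_{n ≤ y} b(n)`.  We prove unconditionally
that every zero `ρ` of `Λ(f, s)` with `Re ρ > 0`, of multiplicity at least `r`, forces
`|M(y)| ≥ c y^{Re ρ} (log y)^{r-1}` for some `y` in every window `[x, x (log x)^B]` (`B > 2` fixed, `x`
large).  Hence `M(y) = o(y log y)` on an arbitrarily sparse sequence of such windows already implies
the Riemann hypothesis for `L(f, s)` and the simplicity of all its zeros, including the one at the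
central point.

Proof: modules `Pool.Agent.H313R3.GK.A` to `R`.
-/

set_option autoImplicit false

namespace Pool.Agent.Results.MP_553913_nt.LocalOscillation

open UpperHalfPlane MatrixGroups CongruenceSubgroup Filter

/-- `f` has real Fourier coefficients `a(n)` with `a(1) = 1` and satisfies
`f(-1/(Nτ)) = -ε N τ² f(τ)`, where `ε = ± 1` is the root number. -/
structure IsNormalized (N : ℕ) (f : CuspForm (Gamma0 N : Subgroup (GL (Fin 2) ℝ)) 2) (ε : ℝ) : Prop where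
  one : (qExpansion 1 f).coeff 1 = 1
  real : ∀ n, ((qExpansion 1 f).coeff n).im = 0
  sign : ε = 1 ∨ ε = -1
  fricke : ∀ τ τ' : ℍ, (τ' : ℂ) * ((N : ℂ) * (τ : ℂ)) = -1 →
    f τ' = -(ε : ℂ) * (N : ℂ) * (τ : ℂ) ^ 2 * f τ

/-- `Λ` is the completed L-function of `f`: it is entire and
`Λ(s) = N^(s/2) (2π)^(-s) Γ(s) ∑ a(n) n^(-s)` for `Re s > 2`. -/
def IsCompleted (N : ℕ) (f : CuspForm (Gamma0 N : Subgroup (GL (Fin 2) ℝ)) 2) (Λ : ℂ → ℂ) : Prop :=
  Differentiable ℂ Λ ∧ ∀ s : ℂ, 2 < s.re →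
    Λ s = ((Real.sqrt N / (2 * Real.pi) : ℝ) : ℂ) ^ s * Complex.Gamma s *
      LSeries (fun n => (qExpansion 1 f).coeff n) s

/-- `b` is the Dirichlet inverse of `a`: `∑_{de = n} a(d) b(e) = 1` if `n = 1` and `0` if `n ≥ 2`, so that
`∑ b(n) n^(-s) = 1 / ∑ a(n) n^(-s)`. -/
def IsInverse (a b : ℕ → ℂ) : Prop :=
  ∀ n : ℕ, 1 ≤ n → ∑ p ∈ n.divisorsAntidiagonal, a p.1 * b p.2 = if n = 1 then 1 else 0

/-- `M(y) = ∑_{n ≤ y} b(n)` -/
noncomputable def mertens (b : ℕ → ℂ) (y : ℝ) : ℂ := ∑ n ∈ Finset.Icc 1 ⌊y⌋₊, b n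

/-- the window `[x, x (log x)^B]` -/
def window (B x : ℝ) : Set ℝ := Set.Icc x (x * Real.log x ^ B)

theorem result (N : ℕ) [NeZero N] (f : CuspForm (Gamma0 N : Subgroup (GL (Fin 2) ℝ)) 2) (ε : ℝ)
    (hf : IsNormalized N f ε) :
    ∃ Λ : ℂ → ℂ, IsCompleted N f Λ ∧ (∀ s : ℂ, Λ (2 - s) = ε * Λ s) ∧
      (∃ b : ℕ → ℂ, IsInverse (fun n => (qExpansion 1 f).coeff n) b) ∧
      ∀ b : ℕ → ℂ, IsInverse (fun n => (qExpansion 1 f).coeff n) b → ∀ B : ℝ, 2 < B →
        -- every zero is visible in every window, with its multiplicity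
        (∀ (ρ : ℂ) (r : ℕ), 0 < ρ.re → 1 ≤ r → (r : ℕ∞) ≤ analyticOrderAt Λ ρ →
          ∃ c : ℝ, 0 < c ∧ ∀ᶠ x : ℝ in atTop, ∃ y ∈ window B x,
            c * (y ^ ρ.re * Real.log y ^ (r - 1)) ≤ ‖mertens b y‖) ∧
        -- a power saving on a sparse sequence of windows gives a zero-free half-plane
        (∀ δ : ℝ, 1 ≤ δ → (∀ η : ℝ, 0 < η → ∃ᶠ x : ℝ in atTop, ∀ y ∈ window B x,
            ‖mertens b y‖ ≤ y ^ (δ + η)) →
          ∀ ρ : ℂ, Λ ρ = 0 → 2 - δ ≤ ρ.re ∧ ρ.re ≤ δ) ∧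
        -- a bound `o(y (log y)^j)` on a sparse sequence of windows gives the Riemann hypothesis with
        -- multiplicities at most `j`
        (∀ j : ℕ, 1 ≤ j → (∀ η : ℝ, 0 < η → ∃ᶠ x : ℝ in atTop, ∀ y ∈ window B x,
            ‖mertens b y‖ ≤ η * (y * Real.log y ^ j)) →
          ∀ ρ : ℂ, Λ ρ = 0 → ρ.re = 1 ∧ analyticOrderAt Λ ρ ≤ j) := by
  have d := H313.GK.IsNorm.hd f (ε := ε) ⟨hf.one, hf.real, hf.sign, hf.fricke⟩
  obtain ⟨C, hC, hb⟩ := H313.GK.coeff_bound0 f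
  refine ⟨_, ⟨d.diff, fun s hs => d.dir hb (by norm_num; linarith)⟩, fun s => ?_, H313.GK.exists_dinv (fun n => (qExpansion 1 f).coeff n) hf.one,
    fun b hab B hB => ⟨fun ρ r hρ hr1 hr => d.osc hab hB hρ hr1 hr, fun δ hδ H ρ hz => ?_, fun j hj H ρ hz => ?_⟩⟩
  · have h1 := d.fe' s
    have h2 : ((2 : ℝ) : ℂ) = 2 := by norm_num
    rw [h2] at h1
    exact h1
  · exact d.crit_pow hab hB (by linarith) H ρ hz
  · have h1 := d.crit hab hB j hj (fun η hη => (H η hη).mono fun x hx y hy => by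
      have := hx y hy
      rw [div_self (two_ne_zero), Real.rpow_one]
      exact this) ρ hz
    rwa [div_self (two_ne_zero)] at h1

end Pool.Agent.Results.MP_553913_nt.LocalOscillation
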